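import Pool.Agent.helper23.F2.Spec

set_option autoImplicit false

open scoped BigOperators

namespace Pool.Agent.F2

open Pool.Agent.helper23.TH

noncomputable section

open Classical

theorem AX1_role {V L : Type} {b s : ℕ} {G : LG V L b s} {t q : ℕ} {m m' : V}
    {ρ : L → Ob (t + 2)} {S : Finset (Fin (t + 3) → V)} (h : AD G t q m m' ρ S) (P : Fin (t + 3) → V) (hP : P ∈ S)
    (i : Fin (t + 3)) : ρ (G.nm (P i)) = .inl i :=
  h.role P hP (.inl i) (G.nm (P i)) (G.nmm (P i))

theorem AX1_f {V L : Type} {b s : ℕ} {G : LG V L b s} {t q : ℕ} {m m' : V}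
    {ρ : L → Ob (t + 2)} {S : Finset (Fin (t + 3) → V)} (h : AD G t q m m' ρ S) (P : Fin (t + 3) → V) (hP : P ∈ S) :
    ac G ρ (P 1) = false := by
  unfold ac
  rw [AX1_role h P hP 1]
  simp

theorem AX1_t {V L : Type} {b s : ℕ} {G : LG V L b s} {t q : ℕ} {m m' : V} (ht : 1 ≤ t)
    {ρ : L → Ob (t + 2)} {S : Finset (Fin (t + 3) → V)} (h : AD G t q m m' ρ S) (P : Fin (t + 3) → V) (hP : P ∈ S) :
    ac G ρ (P (Fin.last (t + 1)).castSucc) = true := by
  unfold ac
  rw [AX1_role h P hP _]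
  have h1 : ¬ ((Sum.inl (Fin.last (t + 1)).castSucc : Ob (t + 2)) = Sum.inl 1) := by
    intro h2
    have h3 := Sum.inl.inj h2
    have h4 := congrArg Fin.val h3
    simp only [Fin.val_castSucc, Fin.val_last, Fin.val_one] at h4
    omega
  simp [h1]

theorem AX1 : AX1_stmt := by
  intro V L _ b s G t q m m' ρ S ht h
  have hf := fun P hP => AX1_f h P hP
  have htt := fun P hP => AX1_t ht h P hP
  have hBf : ∀ x y P, Bt S x y P → ac G ρ x = false := by
    rintro x y P ⟨h1, h2, h3⟩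
    rw [← h2]
    exact hf P h1
  have hBt : ∀ x y P, Bt S x y P → ac G ρ y = true := by
    rintro x y P ⟨h1, h2, h3⟩
    rw [← h3]
    exact htt P h1
  have hU : ∀ x, x ∈ aU S ↔ ((∃ P ∈ S, P 1 = x) ∨ ∃ P ∈ S, P (Fin.last (t + 1)).castSucc = x) := by
    intro x
    unfold aU
    simp
  have h6 : ∀ x y, aA S x y → ac G ρ x = false → ∃ P, Bt S x y P := by
    rintro x y (h1 | ⟨P, h1⟩) h2
    · exact h1
    · rw [hBt y x P h1] at h2
      exact absurd h2 (by decide)
  have h6' : ∀ x y, ac G ρ x = true → ¬ ∃ P, Bt S x y P := by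
    rintro x y h1 ⟨P, h2⟩
    rw [hBf x y P h2] at h1
    exact absurd h1 (by decide)
  have h7 : ∀ x y, aA S x y → ac G ρ x = true → ∃ P, Bt S y x P := by
    rintro x y (⟨P, h1⟩ | h1) h2
    · exact absurd ⟨P, h1⟩ (h6' x y h2)
    · exact h1
  refine ⟨fun P hP => ⟨hf P hP, htt P hP⟩, ?_, ?_, ?_, ?_, ?_, ?_, ?_⟩
  · intro x hx hc
    rcases (hU x).1 hx with h1 | ⟨P, hP, h1⟩
    · exact h1
    · rw [← h1, htt P hP] at hc
      exact absurd hc (by decide)
  · intro x hx hc
    rcases (hU x).1 hx with ⟨P, hP, h1⟩ | h1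
    · rw [← h1, hf P hP] at hc
      exact absurd hc (by decide)
    · exact h1
  · rintro x y (⟨P, h1⟩ | ⟨P, h1⟩)
    · refine ⟨?_, (hU x).2 (Or.inl ⟨P, h1.1, h1.2.1⟩), (hU y).2 (Or.inr ⟨P, h1.1, h1.2.2⟩)⟩
      rw [hBf x y P h1, hBt x y P h1]
      decide
    · refine ⟨?_, (hU x).2 (Or.inr ⟨P, h1.1, h1.2.2⟩), (hU y).2 (Or.inl ⟨P, h1.1, h1.2.1⟩)⟩
      rw [hBf y x P h1, hBt y x P h1]
      decide
  · intro x y h1
    exact Or.symm h1
  · intro x y h1 h2
    have h3 := h6 x y h1 h2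
    unfold aw
    rw [dif_pos h3]
    exact h3.choose_spec
  · intro x y h1 h2
    have h3 := h6' x y h2
    have h4 := h7 x y h1 h2
    have h5 : (fun i => aw S x y i.rev) = h4.choose := by
      funext i
      unfold aw
      rw [dif_neg h3, dif_pos h4]
      show h4.choose i.rev.rev = h4.choose i
      rw [Fin.rev_rev]
    rw [h5]
    exact h4.choose_spec
  · intro x y h1
    rcases Bool.eq_false_or_eq_true (ac G ρ x) with h2 | h2
    · have h3 := h6' x y h2
      have h4 := h7 x y h1 h2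
      funext i
      unfold aw
      rw [dif_pos h4, dif_neg h3, dif_pos h4]
      show h4.choose i = h4.choose i.rev.rev
      rw [Fin.rev_rev]
    · have h3 := h6 x y h1 h2
      have h4 : ¬ ∃ P, Bt S y x P := by
        rintro ⟨P, h5⟩
        rw [hBt y x P h5] at h2
        exact absurd h2 (by decide)
      funext i
      unfold aw
      rw [dif_neg h4, dif_pos h3, dif_pos h3]

end

end Pool.Agent.F2
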